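import Pool.Agent.Helper79.CL.NormForm

/-!
# CB for a prime `ℓ`: the rational points of one fibre are dense
-/

set_option autoImplicit false

namespace Pool.Agent.Helper79.CL

open Matrix Pool.Agent.Helper18.CL

/-- homogenised value of a polynomial -/
noncomputable def hm {σ M R : Type*} [Fintype σ] [Field M] [CommRing R] [Algebra M R]
    (G : MvPolynomial σ M) (T : R) (P : σ → R) : R :=
  ∑ m ∈ G.support, algebraMap M R (G.coeff m) *
    (T ^ (G.totalDegree - ∑ i, m i) * ∏ i, P i ^ m i)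

theorem map_hm {σ M R S : Type*} [Fintype σ] [Field M] [CommRing R] [Algebra M R] [CommRing S]
    [Algebra M S] (f : R →ₐ[M] S) (G : MvPolynomial σ M) (T : R) (P : σ → R) :
    f (hm G T P) = hm G (f T) (fun i => f (P i)) := by
  unfold hm
  rw [map_sum]
  refine Finset.sum_congr rfl fun m _ => ?_
  rw [map_mul, map_mul, map_pow, map_prod, AlgHom.commutes]
  simp only [map_pow]

theorem hm_eq {σ M K : Type*} [Fintype σ] [Field M] [Field K] [Algebra M K]
    (G : MvPolynomial σ M) (T : K) (hT : T ≠ 0) (P : σ → K) :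
    hm G T P = T ^ G.totalDegree * MvPolynomial.aeval (fun i => P i / T) G := by
  rw [MvPolynomial.aeval_def, MvPolynomial.eval₂_eq', Finset.mul_sum]
  unfold hm
  refine Finset.sum_congr rfl fun m hmem => ?_
  have h1 : ∑ i, m i ≤ G.totalDegree := by
    have h2 := MvPolynomial.le_totalDegree hmem
    rwa [Finsupp.sum_fintype _ _ (fun _ => rfl)] at h2
  have h3 : ∏ i, (P i / T) ^ m i = (∏ i, P i ^ m i) / T ^ (∑ i, m i) := by
    simp only [div_pow]
    rw [Finset.prod_div_distrib, Finset.prod_pow_eq_pow_sum]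
  rw [h3]
  have h4 : T ^ G.totalDegree = T ^ (G.totalDegree - ∑ i, m i) * T ^ (∑ i, m i) := by
    rw [← pow_add, Nat.sub_add_cancel h1]
  rw [h4]
  field_simp

section

variable {Ω : Type*} [Field Ω] {l : ℕ} [NeZero l]

theorem nf_pt (ζ α a : Ω) (hζ : IsPrimitiveRoot ζ l) (hα : α ^ l = a) (hα0 : α ≠ 0)
    (x0 y : Fin l → Ω) (hy : nf a y ≠ 0) :
    nf a (fun r => ph a ζ x0 y r / nf a y) = nf a x0 := by
  have h1 : (∏ i : Fin l, wv (ζ ^ (i : ℕ) * α) (fun r => ph a ζ x0 y r / nf a y)) *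
      ∏ i : Fin l, wv (ζ ^ ((i : ℕ) + 1) * α) y =
      (∏ i : Fin l, wv (ζ ^ (i : ℕ) * α) x0) * ∏ i : Fin l, wv (ζ ^ (i : ℕ) * α) y := by
    rw [← Finset.prod_mul_distrib, ← Finset.prod_mul_distrib]
    exact Finset.prod_congr rfl fun i _ => wv_ph ζ α a hζ hα hα0 x0 y hy i
  have h2 : ∏ i : Fin l, wv (ζ ^ ((i : ℕ) + 1) * α) y = ∏ i : Fin l, wv (ζ ^ (i : ℕ) * α) y := by
    rw [← prod_shift ζ hζ.pow_eq_one α (fun t => wv t y)]
    refine Finset.prod_congr rfl fun i _ => ?_
    congr 1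
    ring
  rw [h2, ← nf_eq_prod ζ α a hζ hα hα0, ← nf_eq_prod ζ α a hζ hα hα0,
    ← nf_eq_prod ζ α a hζ hα hα0] at h1
  exact mul_right_cancel₀ hy h1

omit [NeZero l] in
theorem vand_mulVec (ζ α : Ω) (y : Fin l → Ω) (i : Fin l) :
    (Matrix.vandermonde (fun i : Fin l => ζ ^ (i : ℕ) * α) *ᵥ y) i =
      wv (ζ ^ (i : ℕ) * α) y := by
  have h : (Matrix.vandermonde (fun i : Fin l => ζ ^ (i : ℕ) * α) *ᵥ y) i =
      ∑ r : Fin l, Matrix.vandermonde (fun i : Fin l => ζ ^ (i : ℕ) * α) i r * y r := rfl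
  rw [h]
  unfold wv
  refine Finset.sum_congr rfl fun r _ => ?_
  rw [Matrix.vandermonde_apply, mul_comm]

omit [NeZero l] in
theorem exists_wv (ζ α : Ω) (hζ : IsPrimitiveRoot ζ l) (hα0 : α ≠ 0) (Y : Fin l → Ω) :
    ∃ y : Fin l → Ω, ∀ i : Fin l, wv (ζ ^ (i : ℕ) * α) y = Y i := by
  have hV : (Matrix.vandermonde (fun i : Fin l => ζ ^ (i : ℕ) * α)).det ≠ 0 :=
    Matrix.det_vandermonde_ne_zero_iff.mpr (injective_pow ζ α hζ hα0)
  refine ⟨(Matrix.vandermonde (fun i : Fin l => ζ ^ (i : ℕ) * α))⁻¹ *ᵥ Y, fun i => ?_⟩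
  have h1 : Matrix.vandermonde (fun i : Fin l => ζ ^ (i : ℕ) * α) *ᵥ
      ((Matrix.vandermonde (fun i : Fin l => ζ ^ (i : ℕ) * α))⁻¹ *ᵥ Y) = Y := by
    rw [Matrix.mulVec_mulVec, Matrix.mul_nonsing_inv _ (isUnit_iff_ne_zero.mpr hV),
      Matrix.one_mulVec]
  rw [← vand_mulVec, h1]

omit [NeZero l] in
theorem wv_inj (ζ α : Ω) (hζ : IsPrimitiveRoot ζ l) (hα0 : α ≠ 0) (x y : Fin l → Ω)
    (h : ∀ i : Fin l, wv (ζ ^ (i : ℕ) * α) x = wv (ζ ^ (i : ℕ) * α) y) : x = y := by
  have hV : (Matrix.vandermonde (fun i : Fin l => ζ ^ (i : ℕ) * α)).det ≠ 0 :=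
    Matrix.det_vandermonde_ne_zero_iff.mpr (injective_pow ζ α hζ hα0)
  have h1 : Matrix.vandermonde (fun i : Fin l => ζ ^ (i : ℕ) * α) *ᵥ (x - y) = 0 := by
    ext i
    rw [Matrix.mulVec_sub, Pi.sub_apply, vand_mulVec, vand_mulVec, h i, sub_self,
      Pi.zero_apply]
  exact sub_eq_zero.mp (Matrix.eq_zero_of_mulVec_eq_zero hV h1)

/-- every point of the fibre is `x0 y / σ y` (Hilbert 90, split case) -/
theorem exists_pt (ζ α a : Ω) (hζ : IsPrimitiveRoot ζ l) (hα : α ^ l = a) (hα0 : α ≠ 0)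
    (x0 x : Fin l → Ω) (h : nf a x = nf a x0) (h0 : nf a x0 ≠ 0) :
    ∃ y : Fin l → Ω, nf a y ≠ 0 ∧ (fun r => ph a ζ x0 y r / nf a y) = x := by
  have hl0 : 0 < l := Nat.pos_of_ne_zero (NeZero.ne l)
  have e0 : ∏ j ∈ Finset.range l, wv (ζ ^ j * α) x0 = nf a x0 := by
    rw [nf_eq_prod ζ α a hζ hα hα0, Finset.prod_range]
  have e1 : ∏ j ∈ Finset.range l, wv (ζ ^ j * α) x = nf a x0 := by
    rw [← h, nf_eq_prod ζ α a hζ hα hα0, Finset.prod_range]
  have n0 : ∀ j < l, wv (ζ ^ j * α) x0 ≠ 0 := by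
    intro j hj hz
    apply h0
    rw [← e0]
    exact Finset.prod_eq_zero (Finset.mem_range.mpr hj) hz
  have n1 : ∀ j < l, wv (ζ ^ j * α) x ≠ 0 := by
    intro j hj hz
    apply h0
    rw [← e1]
    exact Finset.prod_eq_zero (Finset.mem_range.mpr hj) hz
  set Y : ℕ → Ω := fun i => ∏ j ∈ Finset.range i, (wv (ζ ^ j * α) x0 / wv (ζ ^ j * α) x) with hY
  have hY0 : Y 0 = 1 := by simp [hY]
  have hYl : Y l = 1 := by
    simp only [hY]
    rw [Finset.prod_div_distrib, e0, e1, div_self h0]
  have hYs : ∀ i, Y (i + 1) = Y i * (wv (ζ ^ i * α) x0 / wv (ζ ^ i * α) x) := by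
    intro i
    simp only [hY]
    rw [Finset.prod_range_succ]
  have hYn : ∀ i ≤ l, Y i ≠ 0 := by
    intro i hi
    simp only [hY]
    rw [Finset.prod_ne_zero_iff]
    intro j hj
    have hj' : j < l := lt_of_lt_of_le (Finset.mem_range.mp hj) hi
    exact div_ne_zero (n0 j hj') (n1 j hj')
  obtain ⟨y, hy⟩ := exists_wv ζ α hζ hα0 (fun i : Fin l => Y i)
  have hy1 : ∀ i < l, wv (ζ ^ i * α) y = Y i := fun i hi => hy ⟨i, hi⟩
  have hnf : nf a y ≠ 0 := by
    rw [nf_eq_prod ζ α a hζ hα hα0, Finset.prod_ne_zero_iff]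
    intro i _
    rw [hy i]
    exact hYn i i.isLt.le
  refine ⟨y, hnf, wv_inj ζ α hζ hα0 _ _ fun i => ?_⟩
  have h1 := wv_ph ζ α a hζ hα hα0 x0 y hnf i
  have h2 : wv (ζ ^ ((i : ℕ) + 1) * α) y = Y (i + 1) := by
    rcases Nat.lt_or_ge ((i : ℕ) + 1) l with h3 | h3
    · exact hy1 _ h3
    · have h4 : (i : ℕ) + 1 = l := le_antisymm i.isLt h3
      have h5 := hy1 0 hl0
      rw [pow_zero, hY0] at h5
      rw [h4, hζ.pow_eq_one, hYl, h5]
  rw [h2, hYs, hy i] at h1
  have h5 := n1 i i.isLt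
  have h6 := n0 i i.isLt
  have h7 := hYn i i.isLt.le
  have h8 : wv (ζ ^ (i : ℕ) * α) (fun r => ph a ζ x0 y r / nf a y) *
      (Y i * wv (ζ ^ (i : ℕ) * α) x0) = wv (ζ ^ (i : ℕ) * α) x *
      (Y i * wv (ζ ^ (i : ℕ) * α) x0) := by
    have h9 : wv (ζ ^ (i : ℕ) * α) (fun r => ph a ζ x0 y r / nf a y) *
        (Y i * wv (ζ ^ (i : ℕ) * α) x0) =
        wv (ζ ^ (i : ℕ) * α) (fun r => ph a ζ x0 y r / nf a y) *
        (Y i * (wv (ζ ^ (i : ℕ) * α) x0 / wv (ζ ^ (i : ℕ) * α) x)) *
        wv (ζ ^ (i : ℕ) * α) x := by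
      field_simp
    rw [h9, h1]
    ring
  exact mul_right_cancel₀ (mul_ne_zero h7 h6) h8

end

theorem aeval_nf {M S : Type*} [Field M] [CommRing S] [Algebra M S] {l : ℕ} [NeZero l] (a : M)
    (y : Fin l → S) :
    MvPolynomial.aeval y (nf (MvPolynomial.C a) (fun i => (MvPolynomial.X i :
      MvPolynomial (Fin l) M))) = nf (algebraMap M S a) y := by
  have h := map_nf ((MvPolynomial.aeval y : MvPolynomial (Fin l) M →ₐ[M] S) :
    MvPolynomial (Fin l) M →+* S) (MvPolynomial.C a) (fun i => MvPolynomial.X i)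
  simpa using h

theorem aeval_ph {M S : Type*} [Field M] [CommRing S] [Algebra M S] {l : ℕ} [NeZero l] (a ζ : M)
    (x0 : Fin l → M) (y : Fin l → S) (i : Fin l) :
    MvPolynomial.aeval y (ph (MvPolynomial.C a) (MvPolynomial.C ζ)
      (fun i => MvPolynomial.C (x0 i)) (fun i => (MvPolynomial.X i :
      MvPolynomial (Fin l) M)) i) =
      ph (algebraMap M S a) (algebraMap M S ζ) (fun i => algebraMap M S (x0 i)) y i := by
  have h := map_ph ((MvPolynomial.aeval y : MvPolynomial (Fin l) M →ₐ[M] S) :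
    MvPolynomial (Fin l) M →+* S) (MvPolynomial.C a) (MvPolynomial.C ζ)
    (fun i => MvPolynomial.C (x0 i)) (fun i => MvPolynomial.X i) i
  simpa using h

/-- a polynomial which vanishes at the rational points vanishes at all points over a field with
`α ^ l = a` -/
theorem all_points {M Ω : Type*} [Field M] [Infinite M] [Field Ω] [Algebra M Ω] {l : ℕ} [NeZero l]
    (ζ a b : M) (hζ : IsPrimitiveRoot ζ l) (hb : b ≠ 0) (α : Ω)
    (hα : α ^ l = algebraMap M Ω a) (hα0 : α ≠ 0) (x0 : Fin l → M) (hx0 : nf a x0 = b)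
    (G : MvPolynomial (Fin l) M) (hG : ∀ x, nf a x = b → MvPolynomial.eval x G = 0)
    (x : Fin l → Ω) (hx : nf (algebraMap M Ω a) x = algebraMap M Ω b) :
    MvPolynomial.aeval x G = 0 := by
  have hζ' : IsPrimitiveRoot (algebraMap M Ω ζ) l := hζ.map_of_injective (algebraMap M Ω).injective
  have hb' : algebraMap M Ω b ≠ 0 := by
    rw [Ne, map_eq_zero]
    exact hb
  have hx0' : nf (algebraMap M Ω a) (fun i => algebraMap M Ω (x0 i)) = algebraMap M Ω b := by
    rw [← map_nf, hx0]
  set NN : MvPolynomial (Fin l) M := nf (MvPolynomial.C a) (fun i => MvPolynomial.X i) with hNN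
  set PP : Fin l → MvPolynomial (Fin l) M := ph (MvPolynomial.C a) (MvPolynomial.C ζ)
    (fun i => MvPolynomial.C (x0 i)) (fun i => MvPolynomial.X i) with hPP
  set H : MvPolynomial (Fin l) M := hm G NN PP with hH
  -- the polynomial `H` vanishes
  have hH0 : H * NN = 0 := by
    refine MvPolynomial.funext fun y => ?_
    rw [map_mul, map_zero, mul_eq_zero, ← MvPolynomial.coe_aeval_eq_eval]
    rw [RingHom.coe_coe, hNN, aeval_nf, Algebra.algebraMap_self, RingHom.id_apply]
    by_cases hy : nf a y = 0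
    · exact Or.inr hy
    · refine Or.inl ?_
      rw [hH, map_hm, hNN, aeval_nf]
      simp only [hPP, aeval_ph, Algebra.algebraMap_self, RingHom.id_apply]
      rw [hm_eq G (nf a y) hy]
      have h1 : nf a (fun r => ph a ζ x0 y r / nf a y) = b := by
        apply (algebraMap M Ω).injective
        have hy' : nf (algebraMap M Ω a) (fun i => algebraMap M Ω (y i)) ≠ 0 := by
          rw [← map_nf, Ne, map_eq_zero]
          exact hy
        have h2 := nf_pt (algebraMap M Ω ζ) α (algebraMap M Ω a) hζ' hα hα0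
          (fun i => algebraMap M Ω (x0 i)) (fun i => algebraMap M Ω (y i)) hy'
        rw [hx0'] at h2
        rw [map_nf, ← h2]
        congr 1
        ext r
        rw [map_div₀, map_ph, map_nf]
      have h3 := hG _ h1
      rw [← MvPolynomial.coe_aeval_eq_eval, RingHom.coe_coe] at h3
      rw [h3, mul_zero]
  have hNN0 : NN ≠ 0 := by
    intro hz
    have h1 := aeval_nf (S := M) a x0
    rw [← hNN, hz, map_zero, Algebra.algebraMap_self, RingHom.id_apply, hx0] at h1
    exact hb h1.symm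
  have hH1 : H = 0 := by
    rcases mul_eq_zero.mp hH0 with h | h
    · exact h
    · exact absurd h hNN0
  obtain ⟨y, hy, hyx⟩ := exists_pt (algebraMap M Ω ζ) α (algebraMap M Ω a) hζ' hα hα0
    (fun i => algebraMap M Ω (x0 i)) x (hx.trans hx0'.symm) (by rw [hx0']; exact hb')
  have h1 : MvPolynomial.aeval y H = 0 := by rw [hH1, map_zero]
  rw [hH, map_hm, hNN, aeval_nf] at h1
  simp only [hPP, aeval_ph] at h1
  rw [hm_eq G _ hy, hyx, mul_eq_zero] at h1
  rcases h1 with h1 | h1
  · exact absurd h1 (pow_ne_zero _ hy)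
  · exact h1

/-- the norm form with a variable in the first place -/
theorem nf_cons {A : Type*} [CommRing A] {n : ℕ} (a : A) (x' : Fin n → A) :
    nf (Polynomial.C a) (Fin.cons Polynomial.X (fun j => Polynomial.C (x' j)) :
      Fin (n + 1) → Polynomial A) =
      (-(mat a (Fin.cons 0 x' : Fin (n + 1) → A))).charpoly := by
  rw [nf_eq, Matrix.charpoly]
  congr 1
  ext1 p q
  rw [Matrix.charmatrix_apply, Matrix.neg_apply]
  simp only [mat, Matrix.of_apply]
  by_cases hpq : p = q
  · subst hpq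
    simp
  · rw [Matrix.diagonal_apply_ne _ hpq]
    obtain ⟨j, hj⟩ := Fin.exists_succ_eq.mpr (sub_ne_zero.mpr (Ne.symm hpq))
    rw [← hj, Fin.cons_succ, Fin.cons_succ]
    split_ifs <;> simp

/-- the equation as a monic polynomial in the first variable -/
noncomputable def eqn {A : Type*} [CommRing A] {n : ℕ} (a b : A) (x' : Fin n → A) : Polynomial A :=
  (-(mat a (Fin.cons 0 x' : Fin (n + 1) → A))).charpoly - Polynomial.C b

theorem natDegree_eqn_aux {A : Type*} [CommRing A] [Nontrivial A] {n : ℕ} (a b : A)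
    (x' : Fin n → A) :
    (Polynomial.C b).degree < (-(mat a (Fin.cons 0 x' : Fin (n + 1) → A))).charpoly.degree := by
  rw [Polynomial.degree_eq_natDegree (Matrix.charpoly_monic _).ne_zero,
    Matrix.charpoly_natDegree_eq_dim, Fintype.card_fin]
  refine lt_of_le_of_lt Polynomial.degree_C_le ?_
  exact_mod_cast Nat.succ_pos n

theorem eqn_monic {A : Type*} [CommRing A] [Nontrivial A] {n : ℕ} (a b : A) (x' : Fin n → A) :
    (eqn a b x').Monic :=
  (Matrix.charpoly_monic _).sub_of_left (natDegree_eqn_aux a b x')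

theorem natDegree_eqn {A : Type*} [CommRing A] [Nontrivial A] {n : ℕ} (a b : A) (x' : Fin n → A) :
    (eqn a b x').natDegree = n + 1 := by
  unfold eqn
  rw [Polynomial.natDegree_sub_eq_left_of_natDegree_lt, Matrix.charpoly_natDegree_eq_dim,
    Fintype.card_fin]
  rw [Matrix.charpoly_natDegree_eq_dim, Fintype.card_fin, Polynomial.natDegree_C]
  exact Nat.succ_pos n

theorem map_eqn {A B : Type*} [CommRing A] [CommRing B] {n : ℕ} (f : A →+* B) (a b : A)
    (x' : Fin n → A) : (eqn a b x').map f = eqn (f a) (f b) (fun j => f (x' j)) := by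
  unfold eqn
  rw [Polynomial.map_sub, Polynomial.map_C, ← Matrix.charpoly_map]
  congr 2
  ext p q
  simp only [Matrix.map_apply, Matrix.neg_apply, mat, Matrix.of_apply, map_neg, map_mul]
  congr 1
  congr 1
  · split_ifs <;> simp
  · refine Fin.cases ?_ (fun j => ?_) (q - p) <;> simp

theorem eqn_zero {A : Type*} [CommRing A] {n : ℕ} (a b : A) :
    eqn a b (fun _ : Fin n => 0) = Polynomial.X ^ (n + 1) - Polynomial.C b := by
  unfold eqn
  have h : -(mat a (Fin.cons 0 (fun _ => 0) : Fin (n + 1) → A)) = 0 := by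
    ext p q
    simp only [Matrix.neg_apply, mat, Matrix.of_apply, Matrix.zero_apply, neg_eq_zero]
    have h1 : (Fin.cons 0 (fun _ => 0) : Fin (n + 1) → A) (q - p) = 0 := by
      refine Fin.cases ?_ (fun j => ?_) (q - p) <;> simp
    rw [h1, mul_zero]
  rw [h, Matrix.charpoly_zero, Fintype.card_fin]

theorem resultant_iff {K : Type*} [Field K] [CharZero K] {n : ℕ} (g : Polynomial K)
    (hg : g.natDegree = n + 1) :
    Polynomial.resultant g g.derivative (n + 1) n ≠ 0 ↔ IsCoprime g g.derivative := by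
  have h1 : g.derivative.natDegree = n := by
    have h2 := Polynomial.degree_derivative (p := g) (by omega)
    rw [hg] at h2
    exact Polynomial.natDegree_eq_of_degree_eq_some (by simpa using h2)
  have h3 := Polynomial.resultant_eq_zero_iff (f := g) (g := g.derivative)
  rw [hg, h1] at h3
  rw [Ne, h3]
  have hg0 : g ≠ 0 := by
    rintro rfl
    rw [Polynomial.natDegree_zero] at hg
    omega
  constructor
  · intro h
    by_contra hc
    exact h ⟨Or.inl hg0, hc⟩
  · rintro h ⟨_, hc⟩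
    exact hc h

theorem eqn_separable {A Ω M : Type*} [CommRing A] [Nontrivial A] [Field Ω] [CharZero Ω] [Field M]
    [CharZero M] {n : ℕ} (φ : A →+* Ω) (hφ : Function.Injective φ) (φ0 : A →+* M) (a b : A)
    (x' : Fin n → A) (hx' : ∀ j, φ0 (x' j) = 0) (hb : φ0 b ≠ 0) :
    ((eqn a b x').map φ).Separable := by
  rw [Polynomial.separable_def, ← resultant_iff (n := n)]
  · rw [Polynomial.derivative_map, Polynomial.resultant_map_map]
    rw [Ne, map_eq_zero_iff φ hφ]
    intro hz
    have h1 : Polynomial.resultant ((eqn a b x').map φ0) ((eqn a b x').map φ0).derivative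
        (n + 1) n ≠ 0 := by
      have h2 : (eqn a b x').map φ0 = Polynomial.X ^ (n + 1) - Polynomial.C (φ0 b) := by
        rw [map_eqn, ← eqn_zero (φ0 a)]
        congr 1
        ext j
        exact hx' j
      rw [resultant_iff]
      · rw [h2]
        exact Polynomial.separable_X_pow_sub_C _ (by exact_mod_cast Nat.succ_ne_zero n) hb
      · rw [h2, Polynomial.natDegree_X_pow_sub_C]
    rw [Polynomial.derivative_map, Polynomial.resultant_map_map, hz, map_zero] at h1
    exact h1 rfl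
  · rw [(eqn_monic _ _ _).natDegree_map, natDegree_eqn]

/-- **END1**: the rational points of one fibre are Zariski dense. -/
theorem dense_fibre (M : Type) [Field M] [CharZero M] (l : ℕ) [NeZero l] (hl : l.Prime) (ζ : M)
    (hζ : IsPrimitiveRoot ζ l) (a b : M) (ha : a ≠ 0) (hb : b ≠ 0) (hx : ∃ x : Fin l → M, nf a x = b)
    (G : MvPolynomial (Fin l) M)
    (hG : ∀ x : Fin l → M, nf a x = b → MvPolynomial.eval x G = 0) :
    G ∈ Ideal.span {nf (MvPolynomial.C a) (fun i => (MvPolynomial.X i : MvPolynomial (Fin l) M)) -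
      MvPolynomial.C b} := by
  classical
  obtain ⟨x0, hx0⟩ := hx
  obtain ⟨n, rfl⟩ : ∃ n, l = n + 1 := ⟨l - 1, by have := hl.pos; omega⟩
  set A := MvPolynomial (Fin n) M with hA
  set Ω := AlgebraicClosure (FractionRing A) with hΩ
  have hinj : Function.Injective (algebraMap A Ω) := by
    rw [IsScalarTower.algebraMap_eq A (FractionRing A) Ω]
    exact (algebraMap (FractionRing A) Ω).injective.comp (IsFractionRing.injective A _)
  have hcz : CharZero Ω := charZero_of_injective_algebraMap (algebraMap M Ω).injective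
  obtain ⟨α, hα⟩ := IsAlgClosed.exists_pow_nat_eq (algebraMap M Ω a) hl.pos
  have hα0 : α ≠ 0 := by
    rintro rfl
    rw [zero_pow hl.ne_zero] at hα
    exact ha ((map_eq_zero _).mp hα.symm)
  set e := MvPolynomial.finSuccEquiv M n with he
  set P : MvPolynomial (Fin (n + 1)) M :=
    nf (MvPolynomial.C a) (fun i => (MvPolynomial.X i : MvPolynomial (Fin (n + 1)) M)) -
      MvPolynomial.C b with hP
  have eC : ∀ c : M, e (MvPolynomial.C c) = Polynomial.C (MvPolynomial.C c : A) := by
    intro c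
    have h := e.commutes c
    rw [MvPolynomial.algebraMap_eq] at h
    rw [h]
    rfl
  set F : Polynomial A := eqn (MvPolynomial.C a) (MvPolynomial.C b) (fun j => MvPolynomial.X j)
    with hF
  have hPF : e P = F := by
    rw [hP, map_sub, eC, hF, eqn, ← nf_cons]
    congr 1
    have h := map_nf (l := n + 1) (e : MvPolynomial (Fin (n + 1)) M →+* Polynomial A)
      (MvPolynomial.C a) (fun i => MvPolynomial.X i)
    rw [RingHom.coe_coe] at h
    rw [h, eC]
    congr 1
    ext1 i
    refine Fin.cases ?_ (fun j => ?_) i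
    · rw [Fin.cons_zero]
      exact MvPolynomial.finSuccEquiv_X_zero
    · rw [Fin.cons_succ]
      exact MvPolynomial.finSuccEquiv_X_succ
  have ev : ∀ (ρ : Ω) (g : MvPolynomial (Fin (n + 1)) M),
      MvPolynomial.aeval (Fin.cons ρ (fun j => algebraMap A Ω (MvPolynomial.X j)) :
        Fin (n + 1) → Ω) g = Polynomial.eval₂ (algebraMap A Ω) ρ (e g) := by
    intro ρ g
    have h : ((MvPolynomial.aeval (Fin.cons ρ (fun j => algebraMap A Ω (MvPolynomial.X j)) :
        Fin (n + 1) → Ω) : MvPolynomial (Fin (n + 1)) M →ₐ[M] Ω) :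
        MvPolynomial (Fin (n + 1)) M →+* Ω) =
        (Polynomial.eval₂RingHom (algebraMap A Ω) ρ).comp
          (e : MvPolynomial (Fin (n + 1)) M →+* Polynomial A) := by
      refine MvPolynomial.ringHom_ext ?_ ?_
      · intro c
        rw [RingHom.comp_apply, RingHom.coe_coe, RingHom.coe_coe, eC, Polynomial.coe_eval₂RingHom,
          Polynomial.eval₂_C, MvPolynomial.aeval_C]
        exact IsScalarTower.algebraMap_apply M A Ω c
      · intro i
        rw [RingHom.comp_apply, RingHom.coe_coe, RingHom.coe_coe, Polynomial.coe_eval₂RingHom,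
          MvPolynomial.aeval_X]
        refine Fin.cases ?_ (fun j => ?_) i
        · rw [MvPolynomial.finSuccEquiv_X_zero, Fin.cons_zero, Polynomial.eval₂_X]
        · rw [MvPolynomial.finSuccEquiv_X_succ, Fin.cons_succ, Polynomial.eval₂_C]
    exact congrArg (fun k => k g) h
  set f : Polynomial Ω := F.map (algebraMap A Ω) with hf
  have hfm : f.Monic := (eqn_monic _ _ _).map _
  have hfd : f.natDegree = n + 1 := by
    rw [hf, (eqn_monic _ _ _).natDegree_map, natDegree_eqn]
  have hsep : f.Separable := by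
    refine eqn_separable (algebraMap A Ω) hinj
      (MvPolynomial.eval (fun _ => 0) : A →+* M) _ _ _ (fun j => ?_) ?_
    · rw [MvPolynomial.eval_X]
    · rw [MvPolynomial.eval_C]
      exact hb
  have hcard : f.roots.toFinset.card = n + 1 := by
    rw [Multiset.toFinset_card_of_nodup (Polynomial.nodup_roots hsep), ← hfd]
    exact ((IsAlgClosed.splits f).natDegree_eq_card_roots).symm
  have hroot : ∀ ρ ∈ f.roots.toFinset, Polynomial.eval₂ (algebraMap A Ω) ρ (e G) = 0 := by
    intro ρ hρ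
    rw [Multiset.mem_toFinset, Polynomial.mem_roots hfm.ne_zero, Polynomial.IsRoot.def, hf,
      Polynomial.eval_map, ← hPF, ← ev] at hρ
    rw [← ev]
    refine all_points ζ a b hζ hb α hα hα0 x0 hx0 G hG _ ?_
    rw [hP, map_sub, aeval_nf, MvPolynomial.aeval_C, sub_eq_zero] at hρ
    exact hρ
  have hR : e G %ₘ F = 0 := by
    have h1 : (e G %ₘ F).map (algebraMap A Ω) = 0 := by
      refine Polynomial.eq_zero_of_natDegree_lt_card_of_eval_eq_zero' _ f.roots.toFinset ?_ ?_
      · intro ρ hρ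
        have h2 := hroot ρ hρ
        rw [← Polynomial.modByMonic_add_div (e G) F, Polynomial.eval₂_add,
          Polynomial.eval₂_mul] at h2
        rw [Multiset.mem_toFinset, Polynomial.mem_roots hfm.ne_zero, Polynomial.IsRoot.def, hf,
          Polynomial.eval_map] at hρ
        rw [hρ, zero_mul, add_zero] at h2
        rw [Polynomial.eval_map]
        exact h2
      · rw [hcard]
        refine lt_of_le_of_lt Polynomial.natDegree_map_le ?_
        have h2 := Polynomial.natDegree_modByMonic_lt (e G) (eqn_monic (MvPolynomial.C a)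
          (MvPolynomial.C b) (fun j : Fin n => (MvPolynomial.X j : A))) (by
            intro h
            have h3 := natDegree_eqn (MvPolynomial.C a) (MvPolynomial.C b)
              (fun j : Fin n => (MvPolynomial.X j : A))
            rw [h, Polynomial.natDegree_one] at h3
            omega)
        rw [natDegree_eqn] at h2
        exact h2
    exact (Polynomial.map_eq_zero_iff hinj).mp h1
  rw [Ideal.mem_span_singleton]
  have hdvd : F ∣ e G := (Polynomial.modByMonic_eq_zero_iff_dvd (eqn_monic _ _ _)).mp hR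
  obtain ⟨Q, hQ⟩ := hdvd
  refine ⟨e.symm Q, ?_⟩
  apply e.injective
  rw [map_mul, hPF, hQ, AlgEquiv.apply_symm_apply]

end Pool.Agent.Helper79.CL
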