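import Pool.Agent.Helper18.CL.Defs

/-!
# CB for a prime `ℓ`, the points of one fibre: the norm form over a field with `α ^ ℓ = a`
-/

set_option autoImplicit false

namespace Pool.Agent.Helper79.CL

open Matrix Pool.Agent.Helper18.CL

section

variable {R : Type*} [CommRing R] {l : ℕ} [NeZero l]

/-- the matrix of the norm form -/
def mat (a : R) (x : Fin l → R) : Matrix (Fin l) (Fin l) R :=
  Matrix.of fun p q => (if p ≤ q then 1 else a) * x (q - p)

theorem nf_eq (a : R) (x : Fin l → R) : nf a x = (mat a x).det := rfl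

omit [NeZero l] in
theorem map_mat {S : Type*} [CommRing S] (f : R →+* S) (a : R) (x : Fin l → R) :
    f.mapMatrix (mat a x) = mat (f a) (fun i => f (x i)) := by
  ext p q
  simp only [mat, RingHom.mapMatrix_apply, Matrix.map_apply, Matrix.of_apply, map_mul]
  congr 1
  split_ifs <;> simp

theorem map_nf {S : Type*} [CommRing S] (f : R →+* S) (a : R) (x : Fin l → R) :
    f (nf a x) = nf (f a) (fun i => f (x i)) := by
  rw [nf_eq, nf_eq, RingHom.map_det, map_mat]

/-- the value at `α` -/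
def wv (α : R) (x : Fin l → R) : R := ∑ r : Fin l, x r * α ^ (r : ℕ)

omit [NeZero l] in
theorem map_wv {S : Type*} [CommRing S] (f : R →+* S) (α : R) (x : Fin l → R) :
    f (wv α x) = wv (f α) (fun i => f (x i)) := by
  simp [wv, map_sum]

omit [NeZero l] in
theorem wv_eq (α : R) (x : Fin l → R) : wv α x = x ⬝ᵥ (fun q : Fin l => α ^ (q : ℕ)) := rfl

theorem mulVec_mat (a α : R) (hα : α ^ l = a) (x : Fin l → R) :
    mat a x *ᵥ (fun q : Fin l => α ^ (q : ℕ)) = fun p : Fin l => wv α x * α ^ (p : ℕ) := by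
  ext p
  unfold Matrix.mulVec dotProduct
  rw [← Equiv.sum_comp (Equiv.addLeft p)]
  unfold wv
  rw [Finset.sum_mul]
  refine Finset.sum_congr rfl fun r _ => ?_
  simp only [mat, Matrix.of_apply, Equiv.coe_addLeft, add_sub_cancel_left]
  have hp := p.isLt
  have hr := r.isLt
  have hval : ((p + r : Fin l) : ℕ) = ((p : ℕ) + r) % l := Fin.val_add p r
  by_cases h : (p : ℕ) + r < l
  · rw [Nat.mod_eq_of_lt h] at hval
    have hle : p ≤ p + r := by
      rw [Fin.le_def, hval]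
      omega
    rw [if_pos hle, hval, pow_add]
    ring
  · have h1 : ((p : ℕ) + r) % l = p + r - l := by
      rw [Nat.mod_eq_sub_mod (by omega), Nat.mod_eq_of_lt (by omega)]
    rw [h1] at hval
    have hle : ¬ p ≤ p + r := by
      rw [Fin.le_def, hval]
      omega
    rw [if_neg hle, hval, ← hα]
    have h2 : α ^ (p : ℕ) * α ^ (r : ℕ) = α ^ l * α ^ ((p : ℕ) + r - l) := by
      rw [← pow_add, ← pow_add]
      congr 1
      omega
    calc α ^ l * x r * α ^ ((p : ℕ) + r - l) = x r * (α ^ l * α ^ ((p : ℕ) + r - l)) := by ring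
      _ = x r * (α ^ (p : ℕ) * α ^ (r : ℕ)) := by rw [h2]
      _ = _ := by ring

/-- product in `R[X] / (X ^ l - a)` -/
def ml (a : R) (x y : Fin l → R) : Fin l → R := x ᵥ* mat a y

theorem wv_ml (a α : R) (hα : α ^ l = a) (x y : Fin l → R) :
    wv α (ml a x y) = wv α x * wv α y := by
  rw [wv_eq, ml, ← Matrix.dotProduct_mulVec, mulVec_mat a α hα, wv_eq α x]
  unfold dotProduct
  rw [Finset.sum_mul]
  refine Finset.sum_congr rfl fun r _ => ?_
  ring

/-- the conjugate element -/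
def cj (a : R) (z : Fin l → R) : Fin l → R := fun q => (mat a z).adjugate 0 q

theorem wv_cj (a α : R) (hα : α ^ l = a) (z : Fin l → R) :
    wv α (cj a z) * wv α z = nf a z := by
  have h1 : (mat a z).adjugate *ᵥ (mat a z *ᵥ (fun q : Fin l => α ^ (q : ℕ))) =
      (mat a z).det • (fun q : Fin l => α ^ (q : ℕ)) := by
    rw [Matrix.mulVec_mulVec, Matrix.adjugate_mul, Matrix.smul_mulVec, Matrix.one_mulVec]
  have h2 := congrFun h1 0
  rw [mulVec_mat a α hα] at h2
  have h3 : ((mat a z).adjugate *ᵥ fun p : Fin l => wv α z * α ^ (p : ℕ)) 0 =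
      wv α (cj a z) * wv α z := by
    unfold Matrix.mulVec dotProduct
    unfold wv cj
    rw [Finset.sum_mul]
    refine Finset.sum_congr rfl fun r _ => ?_
    ring
  rw [← h3, h2]
  simp [nf_eq]

/-- the automorphism `α ↦ ζ α` -/
def sg (ζ : R) (y : Fin l → R) : Fin l → R := fun r => ζ ^ (r : ℕ) * y r

omit [NeZero l] in
theorem wv_sg (ζ α : R) (y : Fin l → R) : wv α (sg ζ y) = wv (ζ * α) y := by
  unfold wv sg
  refine Finset.sum_congr rfl fun r _ => ?_
  rw [mul_pow]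
  ring

/-- the numerator of `x0 y / σ y` -/
def ph (a ζ : R) (x0 y : Fin l → R) : Fin l → R := ml a x0 (ml a y (cj a (sg ζ y)))

omit [NeZero l] in
theorem map_ml {S : Type*} [CommRing S] (f : R →+* S) (a : R) (x y : Fin l → R) (i : Fin l) :
    f (ml a x y i) = ml (f a) (fun i => f (x i)) (fun i => f (y i)) i := by
  unfold ml Matrix.vecMul dotProduct
  rw [map_sum]
  refine Finset.sum_congr rfl fun r _ => ?_
  rw [map_mul, ← map_mat]
  rfl

theorem map_cj {S : Type*} [CommRing S] (f : R →+* S) (a : R) (z : Fin l → R) (i : Fin l) :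
    f (cj a z i) = cj (f a) (fun i => f (z i)) i := by
  unfold cj
  rw [← map_mat, ← RingHom.map_adjugate, RingHom.mapMatrix_apply, Matrix.map_apply]

theorem map_ph {S : Type*} [CommRing S] (f : R →+* S) (a ζ : R) (x0 y : Fin l → R) (i : Fin l) :
    f (ph a ζ x0 y i) = ph (f a) (f ζ) (fun i => f (x0 i)) (fun i => f (y i)) i := by
  unfold ph
  rw [map_ml]
  simp only [map_ml, map_cj]
  have h : (fun i => f (sg ζ y i)) = sg (f ζ) (fun i => f (y i)) := by
    ext i
    simp [sg]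
  rw [h]

end

section

variable {Ω : Type*} [Field Ω] {l : ℕ} [NeZero l]

omit [NeZero l] in
theorem injective_pow (ζ α : Ω) (hζ : IsPrimitiveRoot ζ l) (hα : α ≠ 0) :
    Function.Injective (fun i : Fin l => ζ ^ (i : ℕ) * α) := by
  intro i j h
  have h1 : ζ ^ (i : ℕ) = ζ ^ (j : ℕ) := mul_right_cancel₀ hα h
  exact Fin.ext (hζ.pow_inj i.isLt j.isLt h1)

theorem nf_eq_prod (ζ α a : Ω) (hζ : IsPrimitiveRoot ζ l) (hα : α ^ l = a) (hα0 : α ≠ 0)
    (x : Fin l → Ω) : nf a x = ∏ i : Fin l, wv (ζ ^ (i : ℕ) * α) x := by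
  have hinj := injective_pow ζ α hζ hα0
  have hV : (Matrix.vandermonde (fun i : Fin l => ζ ^ (i : ℕ) * α)).det ≠ 0 :=
    Matrix.det_vandermonde_ne_zero_iff.mpr hinj
  have hpow : ∀ i : ℕ, (ζ ^ i * α) ^ l = a := by
    intro i
    rw [mul_pow, ← pow_mul, mul_comm i l, pow_mul, hζ.pow_eq_one, one_pow, one_mul, hα]
  have key : mat a x * (Matrix.vandermonde (fun i : Fin l => ζ ^ (i : ℕ) * α))ᵀ =
      (Matrix.vandermonde (fun i : Fin l => ζ ^ (i : ℕ) * α))ᵀ *
        Matrix.diagonal (fun i : Fin l => wv (ζ ^ (i : ℕ) * α) x) := by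
    ext p i
    rw [Matrix.mul_diagonal]
    have h1 := congrFun (mulVec_mat a (ζ ^ (i : ℕ) * α) (hpow i) x) p
    rw [Matrix.mul_apply]
    unfold Matrix.mulVec dotProduct at h1
    simp only [Matrix.transpose_apply, Matrix.vandermonde_apply]
    rw [h1]
    ring
  have h2 := congrArg Matrix.det key
  rw [Matrix.det_mul, Matrix.det_mul, Matrix.det_diagonal, Matrix.det_transpose,
    mul_comm (mat a x).det] at h2
  exact mul_left_cancel₀ hV h2

theorem prod_shift (ζ : Ω) (hζ : ζ ^ l = 1) (α : Ω) (g : Ω → Ω) :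
    ∏ i : Fin l, g (ζ ^ (i : ℕ) * (ζ * α)) = ∏ i : Fin l, g (ζ ^ (i : ℕ) * α) := by
  rw [← Equiv.prod_comp (Equiv.addRight (1 : Fin l)) (fun i : Fin l => g (ζ ^ (i : ℕ) * α))]
  refine Finset.prod_congr rfl fun i _ => ?_
  congr 1
  rw [Equiv.coe_addRight, Fin.val_add]
  have h1 : ζ ^ (((i : ℕ) + ((1 : Fin l) : ℕ)) % l) = ζ ^ ((i : ℕ) + ((1 : Fin l) : ℕ)) :=
    (pow_eq_pow_mod _ hζ).symm
  rw [h1, pow_add, Fin.val_one', ← pow_eq_pow_mod 1 hζ, pow_one]
  ring

theorem nf_sg (ζ α a : Ω) (hζ : IsPrimitiveRoot ζ l) (hα : α ^ l = a) (hα0 : α ≠ 0)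
    (y : Fin l → Ω) : nf a (sg ζ y) = nf a y := by
  rw [nf_eq_prod ζ α a hζ hα hα0, nf_eq_prod ζ α a hζ hα hα0]
  rw [← prod_shift ζ hζ.pow_eq_one α (fun t => wv t y)]
  refine Finset.prod_congr rfl fun i _ => ?_
  rw [wv_sg]
  congr 1
  ring

/-- the value of `x0 y / σ y` -/
theorem wv_ph (ζ α a : Ω) (hζ : IsPrimitiveRoot ζ l) (hα : α ^ l = a) (hα0 : α ≠ 0)
    (x0 y : Fin l → Ω) (hy : nf a y ≠ 0) (i : ℕ) :
    wv (ζ ^ i * α) (fun r => ph a ζ x0 y r / nf a y) * wv (ζ ^ (i + 1) * α) y =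
      wv (ζ ^ i * α) x0 * wv (ζ ^ i * α) y := by
  have hpow : (ζ ^ i * α) ^ l = a := by
    rw [mul_pow, ← pow_mul, mul_comm i l, pow_mul, hζ.pow_eq_one, one_pow, one_mul, hα]
  have h1 : wv (ζ ^ i * α) (fun r => ph a ζ x0 y r / nf a y) =
      wv (ζ ^ i * α) (ph a ζ x0 y) / nf a y := by
    unfold wv
    rw [Finset.sum_div]
    refine Finset.sum_congr rfl fun r _ => ?_
    ring
  have h2 : wv (ζ ^ i * α) (cj a (sg ζ y)) * wv (ζ ^ (i + 1) * α) y = nf a y := by
    have h3 := wv_cj a (ζ ^ i * α) hpow (sg ζ y)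
    rw [wv_sg, nf_sg ζ α a hζ hα hα0] at h3
    rw [← h3]
    congr 2
    ring
  rw [h1, ph, wv_ml a _ hpow, wv_ml a _ hpow]
  rw [div_mul_eq_mul_div, div_eq_iff hy, ← h2]
  ring

end

end Pool.Agent.Helper79.CL
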